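import Pool.Agent.J4H94.GS6.Z8c
import Pool.Agent.J4H38.GSX.Mv4
import Pool.Agent.J4H49.GS.Z3A

/-!
# Project GS6 (helper38), (Z8), word for word
-/

set_option autoImplicit false

namespace Pool.Agent.J4H94.GS6

theorem t_Z8 : Pool.Agent.J4H38.GSX.S_Z7 → Pool.Agent.J4H38.GSX.S_Z8 := fun _ =>
  z8 (fun σ hσ => Pool.Agent.J4H38.GSX.mv4 σ hσ) Pool.Agent.J4H49.GS.t_Z3A

end Pool.Agent.J4H94.GS6
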