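import Pool.Agent.J4H38.GSX.Stm7
import Pool.Agent.J4H94.GS.Z3

/-!
# Project GS6 (helper38), (Z7): the fourth moment of the zeta function to the right of `1/2`, uniform and dyadic
-/

set_option autoImplicit false

open MeasureTheory Set Filter

namespace Pool.Agent.J4H94.GS6

open Pool.Agent.J4H38.GS Pool.Agent.J4H38.GSX Pool.Agent.J4H94.GS
open Pool.Agent.J4H77.PE (Zf Zf_diff Zf_cont Zf_le le_Zf Zf_growth cauchy_gauss norm_quad)

lemma le_Zf' {s : ℂ} (hs : 1 / 2 ≤ |s.im|) : ‖riemannZeta s‖ ≤ 5 * ‖Zf s‖ := by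
  unfold Zf
  have hs1 : s ≠ 1 := by
    intro h0
    rw [h0] at hs
    simp at hs
    linarith
  have h1 : riemannZeta₁ s = (s - 1) * riemannZeta s := by
    rw [riemannZeta_eq_inv_sub_mul hs1]
    have : s - 1 ≠ 0 := sub_ne_zero.2 hs1
    field_simp
  have h2 : 1 / 2 ≤ ‖s - 1‖ := by
    have := Complex.abs_im_le_norm (s - 1)
    rw [Complex.sub_im, Complex.one_im, sub_zero] at this
    exact hs.trans this
  have h3 : ‖s + 1‖ ≤ 5 * ‖s - 1‖ := by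
    calc ‖s + 1‖ = ‖(s - 1) + 2‖ := by ring_nf
      _ ≤ ‖s - 1‖ + ‖(2 : ℂ)‖ := norm_add_le _ _
      _ ≤ 5 * ‖s - 1‖ := by rw [Complex.norm_ofNat]; linarith
  have h4 : 0 < ‖s + 1‖ := by
    have := Complex.abs_im_le_norm (s + 1)
    rw [Complex.add_im, Complex.one_im, add_zero] at this
    linarith
  rw [h1, norm_div, norm_mul, ← mul_div_assoc, le_div_iff₀ h4]
  calc ‖riemannZeta s‖ * ‖s + 1‖ ≤ ‖riemannZeta s‖ * (5 * ‖s - 1‖) := by gcongr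
    _ = 5 * (‖s - 1‖ * ‖riemannZeta s‖) := by ring

lemma JJ_le {σ δ σ' δ' K : ℝ} (t : ℝ) (hK : 0 ≤ K) (hsum : σ + δ = σ' + δ')
    (hk : Real.exp (δ ^ 2) * |δ|⁻¹ ≤ K * (Real.exp (δ' ^ 2) * |δ'|⁻¹)) :
    JJ σ δ t ≤ ENNReal.ofReal K * JJ σ' δ' t := by
  unfold JJ
  rw [← lintegral_const_mul' _ _ ENNReal.ofReal_ne_top]
  apply lintegral_mono
  intro y
  simp only
  rw [hsum]
  have h1 : Real.exp (δ ^ 2 - y ^ 2) * |δ|⁻¹ ≤ K * (Real.exp (δ' ^ 2 - y ^ 2) * |δ'|⁻¹) := by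
    rw [sub_eq_add_neg, sub_eq_add_neg, Real.exp_add, Real.exp_add]
    have := mul_le_mul_of_nonneg_right hk (Real.exp_pos (-(y ^ 2))).le
    calc Real.exp (δ ^ 2) * Real.exp (-y ^ 2) * |δ|⁻¹
        = Real.exp (δ ^ 2) * |δ|⁻¹ * Real.exp (-(y ^ 2)) := by ring_nf
      _ ≤ K * (Real.exp (δ' ^ 2) * |δ'|⁻¹) * Real.exp (-(y ^ 2)) := this
      _ = _ := by ring_nf
  calc ‖Zf ((σ' + δ' : ℝ) + ((t + y : ℝ) : ℂ) * Complex.I)‖ₑ ^ 4 *
        ENNReal.ofReal (Real.exp (δ ^ 2 - y ^ 2) * |δ|⁻¹)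
      ≤ ‖Zf ((σ' + δ' : ℝ) + ((t + y : ℝ) : ℂ) * Complex.I)‖ₑ ^ 4 *
        ENNReal.ofReal (K * (Real.exp (δ' ^ 2 - y ^ 2) * |δ'|⁻¹)) := by gcongr
    _ = _ := by
        rw [ENNReal.ofReal_mul hK]
        ring

lemma meas_JJ (w : ℝ) {σ δ : ℝ} (hs : -1 < σ + δ) :
    Measurable (fun t : ℝ => JJ σ δ t * ENNReal.ofReal ((1 + |t|) ^ (-w))) := by
  have hc : Continuous (fun t : ℝ => Zf ((σ + δ : ℝ) + t * Complex.I)) := Zf_cont hs
  have hc4 : Measurable (fun t : ℝ => ‖Zf ((σ + δ : ℝ) + t * Complex.I)‖ₑ ^ 4) := by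
    have := hc.measurable
    fun_prop
  refine Measurable.mul ?_ (by fun_prop)
  unfold JJ
  apply Measurable.lintegral_prod_right'
    (f := fun p : ℝ × ℝ => ‖Zf ((σ + δ : ℝ) + ((p.1 + p.2 : ℝ) : ℂ) * Complex.I)‖ₑ ^ 4 *
      ENNReal.ofReal (Real.exp (δ ^ 2 - p.2 ^ 2) * |δ|⁻¹))
  have h1 : Measurable (fun p : ℝ × ℝ => ‖Zf ((σ + δ : ℝ) + ((p.1 + p.2 : ℝ) : ℂ) * Complex.I)‖ₑ ^ 4) :=
    hc4.comp (measurable_fst.add measurable_snd)
  exact h1.mul (by fun_prop)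

/-- convexity, uniform -/
lemma NN_unif {w x₀ x₁ : ℝ} (hw : 0 ≤ w) (h0 : 1 / 2 < x₀) (h1 : x₁ < 1) (ha : NN w (1 / 2) < ⊤)
    (hb : NN w 2 < ⊤) : ∃ B : ENNReal, B < ⊤ ∧ ∀ x, x₀ ≤ x → x ≤ x₁ → NN w x ≤ B := by
  obtain ⟨C, hg⟩ := Zf_growth 4
  have hF : ∀ z : ℂ, -1 < z.re → DifferentiableAt ℂ (fun s => Zf s ^ 4) z := fun z hz => (Zf_diff hz).pow 4
  set K : ℝ := 3 / 2 * max 1 (x₀ - 1 / 2)⁻¹ with hK
  have hK0 : 0 ≤ K := by positivity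
  have i1 := JJ_int hw (σ := 1 / 2) (δ := 3 / 2) (by norm_num)
    (by rw [show (1 / 2 : ℝ) + 3 / 2 = 2 by norm_num]; exact hb)
  have i2 := JJ_int hw (σ := -1) (δ := 3 / 2) (by norm_num)
    (by rw [show (-1 : ℝ) + 3 / 2 = 1 / 2 by norm_num]; exact ha)
  refine ⟨ENNReal.ofReal K * ((∫⁻ t : ℝ, JJ (1 / 2) (3 / 2) t * ENNReal.ofReal ((1 + |t|) ^ (-w))) +
    ∫⁻ t : ℝ, JJ (-1) (3 / 2) t * ENNReal.ofReal ((1 + |t|) ^ (-w))),
    ENNReal.mul_lt_top ENNReal.ofReal_lt_top (ENNReal.add_lt_top.2 ⟨i1, i2⟩), fun σ hσ0 hσ1 => ?_⟩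
  have hA : 0 < σ - 1 / 2 := by linarith
  have hB : 0 < 2 - σ := by linarith
  have hpt : ∀ t : ℝ, ‖Zf (σ + t * Complex.I)‖ₑ ^ 4 ≤ JJ σ (2 - σ) t + JJ σ (-(σ - 1 / 2)) t := by
    intro t
    have h := cauchy_gauss hF hg (s₀ := σ + t * Complex.I) hA hB (by simp) (by simp)
    have h3 : ‖(2 * Real.pi * Zf (σ + t * Complex.I) ^ 4 : ℂ)‖ₑ ≤ JJ σ (2 - σ) t + JJ σ (-(σ - 1 / 2)) t := by
      rw [h]
      refine enorm_sub_le.trans ?_
      exact add_le_add (JJ_bound hB.ne' t) (JJ_bound (neg_ne_zero.2 hA.ne') t)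
    refine le_trans ?_ h3
    rw [enorm_mul, enorm_pow]
    refine le_mul_of_one_le_left (by positivity) ?_
    rw [← ofReal_norm, norm_mul, Complex.norm_ofNat, Complex.norm_real, Real.norm_of_nonneg Real.pi_pos.le,
      ← ENNReal.ofReal_one]
    apply ENNReal.ofReal_le_ofReal
    linarith [Real.pi_gt_three]
  have k1 : ∀ t, JJ σ (2 - σ) t ≤ ENNReal.ofReal K * JJ (1 / 2) (3 / 2) t := by
    intro t
    apply JJ_le t hK0 (by ring)
    have e1 : Real.exp ((2 - σ) ^ 2) ≤ Real.exp ((3 / 2 : ℝ) ^ 2) := by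
      apply Real.exp_le_exp.2
      nlinarith
    have e2 : |2 - σ|⁻¹ ≤ K * |(3 / 2 : ℝ)|⁻¹ := by
      rw [abs_of_pos hB, abs_of_pos (by norm_num : (0 : ℝ) < 3 / 2)]
      have e3 : (2 - σ)⁻¹ ≤ 1 := by
        apply inv_le_one_of_one_le₀
        linarith
      have e4 : K * (3 / 2 : ℝ)⁻¹ = max 1 (x₀ - 1 / 2)⁻¹ := by rw [hK]; ring
      rw [e4]
      exact e3.trans (le_max_left _ _)
    calc _ ≤ Real.exp ((3 / 2 : ℝ) ^ 2) * (K * |(3 / 2 : ℝ)|⁻¹) := by gcongr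
      _ = _ := by ring
  have k2 : ∀ t, JJ σ (-(σ - 1 / 2)) t ≤ ENNReal.ofReal K * JJ (-1) (3 / 2) t := by
    intro t
    apply JJ_le t hK0 (by ring)
    have e1 : Real.exp ((-(σ - 1 / 2)) ^ 2) ≤ Real.exp ((3 / 2 : ℝ) ^ 2) := by
      apply Real.exp_le_exp.2
      nlinarith
    have e2 : |-(σ - 1 / 2)|⁻¹ ≤ K * |(3 / 2 : ℝ)|⁻¹ := by
      rw [abs_neg, abs_of_pos hA, abs_of_pos (by norm_num : (0 : ℝ) < 3 / 2)]
      have e3 : (σ - 1 / 2)⁻¹ ≤ (x₀ - 1 / 2)⁻¹ := by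
        apply inv_anti₀ (by linarith)
        linarith
      have e4 : K * (3 / 2 : ℝ)⁻¹ = max 1 (x₀ - 1 / 2)⁻¹ := by rw [hK]; ring
      rw [e4]
      exact e3.trans (le_max_right _ _)
    calc _ ≤ Real.exp ((3 / 2 : ℝ) ^ 2) * (K * |(3 / 2 : ℝ)|⁻¹) := by gcongr
      _ = _ := by ring
  unfold NN
  calc ∫⁻ t : ℝ, ‖Zf (σ + t * Complex.I)‖ₑ ^ 4 * ENNReal.ofReal ((1 + |t|) ^ (-w))
      ≤ ∫⁻ t : ℝ, ENNReal.ofReal K * (JJ (1 / 2) (3 / 2) t * ENNReal.ofReal ((1 + |t|) ^ (-w)) +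
          JJ (-1) (3 / 2) t * ENNReal.ofReal ((1 + |t|) ^ (-w))) := by
        apply lintegral_mono
        intro t
        simp only
        rw [← add_mul, ← mul_assoc]
        gcongr
        rw [mul_add]
        exact (hpt t).trans (add_le_add (k1 t) (k2 t))
    _ = _ := by
        rw [lintegral_const_mul' _ _ ENNReal.ofReal_ne_top,
          lintegral_add_left (meas_JJ w (by norm_num))]

theorem z7 : S_Z3A → S_Z7 := by
  intro hA x₀ x₁ ε h0 h01 h1 hε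
  set w : ℝ := 1 + ε with hw
  have hw1 : 1 < w := by linarith
  have hw0 : 0 ≤ w := by linarith
  have ha : NN w (1 / 2) < ⊤ := full hw0 (by norm_num) (hA w hw1)
  have hb : NN w 2 < ⊤ := by
    apply full hw0 (by norm_num)
    obtain ⟨C, hC, hz⟩ := zeta_two_le
    have : ∫⁻ t in {t : ℝ | 1 ≤ |t|}, ‖riemannZeta ((2 : ℝ) + t * Complex.I)‖ₑ ^ 4 * ENNReal.ofReal (|t| ^ (-w)) ≤
        ∫⁻ t in {t : ℝ | 1 ≤ |t|}, ENNReal.ofReal C ^ 4 * ENNReal.ofReal (|t| ^ (-w)) := by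
      apply lintegral_mono
      intro t
      simp only
      gcongr
      rw [← ofReal_norm]
      exact ENNReal.ofReal_le_ofReal (hz t)
    refine lt_of_le_of_lt this ?_
    rw [lintegral_const_mul' _ _ (ENNReal.pow_ne_top ENNReal.ofReal_ne_top)]
    exact ENNReal.mul_lt_top (ENNReal.pow_lt_top ENNReal.ofReal_lt_top) (tail_fin hw1)
  obtain ⟨B, hB, hNN⟩ := NN_unif hw0 h0 h1 ha hb
  refine ⟨5 ^ 4 * 5 ^ w * B.toReal, by positivity, fun j x hx0 hx1 => ?_⟩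
  have h2j : (1 : ℝ) ≤ 2 ^ j := one_le_pow₀ (by norm_num)
  have hpt : ∀ t ∈ Icc ((2 : ℝ) ^ j / 2) (4 * 2 ^ j), ‖riemannZeta (x + t * Complex.I)‖ₑ ^ 4 ≤
      ENNReal.ofReal (5 ^ 4 * (5 * 2 ^ j) ^ w) *
        (‖Zf (x + t * Complex.I)‖ₑ ^ 4 * ENNReal.ofReal ((1 + |t|) ^ (-w))) := by
    intro t ht
    have ht0 : 1 / 2 ≤ t := by linarith [ht.1]
    have hta : |t| = t := abs_of_nonneg (by linarith)
    have h1 : ‖riemannZeta (x + t * Complex.I)‖ₑ ≤ ENNReal.ofReal 5 * ‖Zf (x + t * Complex.I)‖ₑ := by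
      rw [← ofReal_norm, ← ofReal_norm, ← ENNReal.ofReal_mul (by norm_num)]
      apply ENNReal.ofReal_le_ofReal
      apply le_Zf'
      have : (x + t * Complex.I : ℂ).im = t := by simp
      rw [this, hta]
      exact ht0
    have h2 : 1 ≤ (5 * 2 ^ j) ^ w * (1 + |t|) ^ (-w) := by
      rw [hta, Real.rpow_neg (by linarith), ← div_eq_mul_inv, le_div_iff₀ (Real.rpow_pos_of_pos (by linarith) _), one_mul]
      apply Real.rpow_le_rpow (by linarith) _ hw0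
      linarith [ht.2]
    calc ‖riemannZeta (x + t * Complex.I)‖ₑ ^ 4
        ≤ (ENNReal.ofReal 5 * ‖Zf (x + t * Complex.I)‖ₑ) ^ 4 * ENNReal.ofReal ((5 * 2 ^ j) ^ w * (1 + |t|) ^ (-w)) := by
          calc _ ≤ (ENNReal.ofReal 5 * ‖Zf (x + t * Complex.I)‖ₑ) ^ 4 * 1 := by
                rw [mul_one]; gcongr
            _ ≤ _ := by
                gcongr
                rw [← ENNReal.ofReal_one]
                exact ENNReal.ofReal_le_ofReal h2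
      _ = _ := by
          rw [ENNReal.ofReal_mul (by positivity), ENNReal.ofReal_mul (by positivity), mul_pow,
            ← ENNReal.ofReal_pow (by norm_num)]
          ring
  calc ∫⁻ t in Icc ((2 : ℝ) ^ j / 2) (4 * 2 ^ j), ‖riemannZeta (x + t * Complex.I)‖ₑ ^ 4
      ≤ ∫⁻ t in Icc ((2 : ℝ) ^ j / 2) (4 * 2 ^ j), ENNReal.ofReal (5 ^ 4 * (5 * 2 ^ j) ^ w) *
        (‖Zf (x + t * Complex.I)‖ₑ ^ 4 * ENNReal.ofReal ((1 + |t|) ^ (-w))) :=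
        setLIntegral_mono' measurableSet_Icc hpt
    _ = ENNReal.ofReal (5 ^ 4 * (5 * 2 ^ j) ^ w) * ∫⁻ t in Icc ((2 : ℝ) ^ j / 2) (4 * 2 ^ j),
        (‖Zf (x + t * Complex.I)‖ₑ ^ 4 * ENNReal.ofReal ((1 + |t|) ^ (-w))) :=
        lintegral_const_mul' _ _ ENNReal.ofReal_ne_top
    _ ≤ ENNReal.ofReal (5 ^ 4 * (5 * 2 ^ j) ^ w) * B := by
        gcongr
        exact (setLIntegral_le_lintegral _ _).trans (hNN x hx0 hx1)
    _ = ENNReal.ofReal (5 ^ 4 * 5 ^ w * B.toReal * (2 : ℝ) ^ (j * (1 + ε))) := by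
        have e : ((2 : ℝ) ^ j) ^ w = (2 : ℝ) ^ ((j : ℝ) * w) := by
          rw [← Real.rpow_natCast, ← Real.rpow_mul (by norm_num)]
        rw [Real.mul_rpow (by norm_num) (by positivity), e, ← hw]
        conv_lhs => rw [← ENNReal.ofReal_toReal hB.ne]
        rw [← ENNReal.ofReal_mul (by positivity)]
        congr 1
        ring

end Pool.Agent.J4H94.GS6
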