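import Pool.Agent.J4H94.GS6.Z7Core

/-!
# Project GS6 (helper38), (Z8), first part: the difference of the zeta function and its partial sum
-/

set_option autoImplicit false

open MeasureTheory Set Filter

namespace Pool.Agent.J4H94.GS6

open Pool.Agent.J4H38.GS Pool.Agent.J4H38.GSX Pool.Agent.J4H94.GS
open Pool.Agent.J4H77.PE (Zf Zf_diff Zf_cont Zf_le le_Zf Zf_growth cauchy_gauss norm_quad Growth)

lemma SN0 (N : ℕ) (s : ℂ) : SN N 0 s = ∑ n ∈ Finset.Icc 1 N, (n : ℂ) ^ (-s) := by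
  unfold SN
  simp

lemma SN_diff (N : ℕ) (s : ℂ) : DifferentiableAt ℂ (fun s => SN N 0 s) s := by
  simp_rw [SN0]
  apply DifferentiableAt.fun_sum
  intro n hn
  have hn1 : n ≠ 0 := by have := (Finset.mem_Icc.1 hn).1; omega
  exact differentiableAt_id.neg.const_cpow (Or.inl (by exact_mod_cast hn1))

lemma SN_norm {N : ℕ} {s : ℂ} (hs : 0 ≤ s.re) : ‖SN N 0 s‖ ≤ N := by
  rw [SN0]
  refine (norm_sum_le _ _).trans ?_
  calc ∑ n ∈ Finset.Icc 1 N, ‖(n : ℂ) ^ (-s)‖ ≤ ∑ _n ∈ Finset.Icc 1 N, (1 : ℝ) := by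
        refine Finset.sum_le_sum fun n hn => ?_
        have hn1 := (Finset.mem_Icc.1 hn).1
        rw [Complex.norm_natCast_cpow_of_pos (by omega), Complex.neg_re]
        exact Real.rpow_le_one_of_one_le_of_nonpos (by exact_mod_cast hn1) (by linarith)
    _ = N := by simp

/-- `(s - 1) / (s + 1)` times the difference -/
noncomputable def Gf (N : ℕ) (s : ℂ) : ℂ := Zf s - (s - 1) / (s + 1) * SN N 0 s

lemma ne_neg {s : ℂ} (hs : -1 < s.re) : s + 1 ≠ 0 := by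
  intro h
  have : (s + 1).re = 0 := by rw [h]; simp
  simp at this
  linarith

lemma quot_le {s : ℂ} (hs : 0 ≤ s.re) : ‖(s - 1) / (s + 1)‖ ≤ 1 := by
  rw [norm_div]
  apply div_le_one_of_le₀ _ (norm_nonneg _)
  rw [← sq_le_sq₀ (norm_nonneg _) (norm_nonneg _), Complex.sq_norm, Complex.sq_norm, Complex.normSq_apply, Complex.normSq_apply]
  simp
  nlinarith

lemma Gf_diff (N : ℕ) {s : ℂ} (hs : -1 < s.re) : DifferentiableAt ℂ (Gf N) s := by
  have h1 : DifferentiableAt ℂ (fun s : ℂ => (s - 1) / (s + 1)) s :=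
    DifferentiableAt.div (by fun_prop) (by fun_prop) (ne_neg hs)
  exact (Zf_diff hs).sub (h1.mul (SN_diff N s))

lemma Gf_le {N : ℕ} {s : ℂ} (hs : 0 ≤ s.re) : ‖Gf N s‖ ≤ ‖Zf s‖ + ‖SN N 0 s‖ := by
  unfold Gf
  refine (norm_sub_le _ _).trans ?_
  rw [norm_mul]
  have := mul_le_of_le_one_left (norm_nonneg (SN N 0 s)) (quot_le hs)
  linarith

lemma four (a b : ℝ) : (a + b) ^ 4 ≤ 8 * (a ^ 4 + b ^ 4) := by
  nlinarith [sq_nonneg (a - b), sq_nonneg (a ^ 2 - b ^ 2), sq_nonneg (a + b), sq_nonneg ((a - b) ^ 2),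
    mul_nonneg (sq_nonneg (a - b)) (sq_nonneg (a + b)), sq_nonneg (a * b)]

lemma Gf_le4 {N : ℕ} {s : ℂ} (hs : 0 ≤ s.re) : ‖Gf N s‖ ^ 4 ≤ 8 * (‖Zf s‖ ^ 4 + ‖SN N 0 s‖ ^ 4) :=
  (pow_le_pow_left₀ (norm_nonneg _) (Gf_le hs) 4).trans (four _ _)

lemma Gf_eq {N : ℕ} {s : ℂ} (hs1 : s ≠ 1) :
    Gf N s = (s - 1) / (s + 1) * (riemannZeta s - SN N 0 s) := by
  unfold Gf Zf
  have h1 : riemannZeta₁ s = (s - 1) * riemannZeta s := by
    rw [riemannZeta_eq_inv_sub_mul hs1]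
    have : s - 1 ≠ 0 := sub_ne_zero.2 hs1
    field_simp
  rw [h1]
  ring

/-- from `Gf` to the difference -/
lemma le_Gf {N : ℕ} {s : ℂ} (hs : 1 / 2 ≤ |s.im|) : ‖riemannZeta s - SN N 0 s‖ ≤ 5 * ‖Gf N s‖ := by
  have hs1 : s ≠ 1 := by
    intro h0
    rw [h0] at hs
    simp at hs
    linarith
  have h2 : 1 / 2 ≤ ‖s - 1‖ := by
    have := Complex.abs_im_le_norm (s - 1)
    rw [Complex.sub_im, Complex.one_im, sub_zero] at this
    exact hs.trans this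
  have h3 : ‖s + 1‖ ≤ 5 * ‖s - 1‖ := by
    calc ‖s + 1‖ = ‖(s - 1) + 2‖ := by ring_nf
      _ ≤ ‖s - 1‖ + ‖(2 : ℂ)‖ := norm_add_le _ _
      _ ≤ 5 * ‖s - 1‖ := by rw [Complex.norm_ofNat]; linarith
  have h4 : 0 < ‖s + 1‖ := by
    have := Complex.abs_im_le_norm (s + 1)
    rw [Complex.add_im, Complex.one_im, add_zero] at this
    linarith
  rw [Gf_eq hs1, norm_mul, norm_div]
  have h5 : 1 ≤ 5 * (‖s - 1‖ / ‖s + 1‖) := by
    rw [← mul_div_assoc, le_div_iff₀ h4]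
    linarith
  calc ‖riemannZeta s - SN N 0 s‖ ≤ (5 * (‖s - 1‖ / ‖s + 1‖)) * ‖riemannZeta s - SN N 0 s‖ :=
        le_mul_of_one_le_left (norm_nonneg _) h5
    _ = _ := by ring

/-- the function for Cauchy's formula -/
noncomputable def Ff (N : ℕ) (s : ℂ) : ℂ := Gf N s ^ 4 * (N : ℂ) ^ s

lemma Ff_diff {N : ℕ} (hN : 1 ≤ N) {s : ℂ} (hs : -1 < s.re) : DifferentiableAt ℂ (Ff N) s := by
  unfold Ff
  have hN0 : (N : ℂ) ≠ 0 := by exact_mod_cast (by omega : N ≠ 0)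
  exact ((Gf_diff N hs).pow 4).mul (differentiableAt_id.const_cpow (Or.inl hN0))

lemma Ff_norm {N : ℕ} (hN : 1 ≤ N) (s : ℂ) : ‖Ff N s‖ = ‖Gf N s‖ ^ 4 * (N : ℝ) ^ s.re := by
  unfold Ff
  rw [norm_mul, norm_pow, Complex.norm_natCast_cpow_of_pos (by omega)]

lemma Ff_growth {N : ℕ} (hN : 1 ≤ N) : ∃ C, Growth (Ff N) C 4 := by
  obtain ⟨C, hC, hg⟩ := Zf_growth 4
  refine ⟨8 * (C + N ^ 4) * N ^ 2, by positivity, fun s h1 h2 h3 => ?_⟩
  rw [Ff_norm hN]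
  have h4 := hg s h1 h2 h3
  simp only [norm_pow] at h4
  have h5 : ‖SN N 0 s‖ ^ 4 ≤ N ^ 4 := pow_le_pow_left₀ (norm_nonneg _) (SN_norm h1) 4
  have h6 : (N : ℝ) ^ s.re ≤ (N : ℝ) ^ 2 := by
    rw [← Real.rpow_natCast]
    exact Real.rpow_le_rpow_of_exponent_le (by exact_mod_cast hN) (by push_cast; linarith)
  have h7 : (1 : ℝ) ≤ s.im ^ (2 * 4) := by
    rw [pow_mul, ← sq_abs, ← pow_mul]
    exact one_le_pow₀ h3
  have h8 : ‖Gf N s‖ ^ 4 ≤ 8 * (C + N ^ 4) * s.im ^ (2 * 4) := by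
    refine (Gf_le4 h1).trans ?_
    have h9 : (N : ℝ) ^ 4 ≤ N ^ 4 * s.im ^ (2 * 4) := le_mul_of_one_le_right (by positivity) h7
    nlinarith
  calc ‖Gf N s‖ ^ 4 * (N : ℝ) ^ s.re ≤ (8 * (C + N ^ 4) * s.im ^ (2 * 4)) * (N : ℝ) ^ 2 := by
        gcongr
    _ = _ := by ring

/-- the difference on the line `2` -/
lemma tail_two {N : ℕ} (hN : 1 ≤ N) (t : ℝ) :
    ‖riemannZeta ((2 : ℝ) + t * Complex.I) - SN N 0 ((2 : ℝ) + t * Complex.I)‖ ≤ 1 / N := by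
  have hN0 : (0 : ℝ) < N := by exact_mod_cast hN
  set s : ℂ := (2 : ℝ) + t * Complex.I with hs
  have hre : s.re = 2 := by rw [hs]; simp
  have hz : riemannZeta s = ∑' n : ℕ, 1 / ((n : ℂ) + 1) ^ s := zeta_eq_tsum_one_div_nat_add_one_cpow (by rw [hre]; norm_num)
  have hn : ∀ n : ℕ, ‖1 / ((n : ℂ) + 1) ^ s‖ = 1 / ((n : ℝ) + 1) ^ (2 : ℝ) := by
    intro n
    rw [norm_div, norm_one]
    congr 1
    have : ((n : ℂ) + 1) = (((n : ℝ) + 1 : ℝ) : ℂ) := by push_cast; ring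
    rw [this, Complex.norm_cpow_eq_rpow_re_of_pos (by positivity), hre]
  have hsr : Summable (fun n : ℕ => 1 / ((n : ℝ) + 1) ^ (2 : ℝ)) := by
    have := (summable_nat_add_iff 1).2 (Real.summable_one_div_nat_rpow.2 (by norm_num : (1 : ℝ) < 2))
    simpa using this
  have hsum : Summable (fun n : ℕ => 1 / ((n : ℂ) + 1) ^ s) := by
    apply Summable.of_norm
    simp_rw [hn]
    exact hsr
  have hSN : SN N 0 s = ∑ n ∈ Finset.range N, 1 / ((n : ℂ) + 1) ^ s := by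
    have h1 : (Finset.Icc 1 N) = Finset.Ico (0 + 1) (N + 1) := by
      ext n
      simp only [Finset.mem_Icc, Finset.mem_Ico]
      omega
    rw [SN0, Finset.range_eq_Ico, h1]
    have h2 := Finset.sum_Ico_add' (fun n : ℕ => 1 / ((n : ℂ)) ^ s) 0 N 1
    calc ∑ n ∈ Finset.Ico (0 + 1) (N + 1), (n : ℂ) ^ (-s)
        = ∑ n ∈ Finset.Ico (0 + 1) (N + 1), 1 / ((n : ℂ)) ^ s :=
          Finset.sum_congr rfl fun n _ => by rw [Complex.cpow_neg, one_div]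
      _ = ∑ n ∈ Finset.Ico 0 N, 1 / (((n + 1 : ℕ) : ℂ)) ^ s := h2.symm
      _ = _ := Finset.sum_congr rfl fun n _ => by push_cast; rfl
  rw [hz, hSN, ← hsum.sum_add_tsum_nat_add N, add_sub_cancel_left]
  have hs2 : Summable (fun n : ℕ => ‖1 / (((n + N : ℕ) : ℂ) + 1) ^ s‖) :=
    ((summable_nat_add_iff N).2 hsum.norm)
  refine (norm_tsum_le_tsum_norm hs2).trans ?_
  apply Real.tsum_le_of_sum_range_le (fun n => norm_nonneg _)
  intro M
  have key : ∀ M : ℕ, ∑ n ∈ Finset.range M, ‖1 / (((n + N : ℕ) : ℂ) + 1) ^ s‖ ≤ 1 / N - 1 / (N + M) := by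
    intro M
    induction M with
    | zero => simp
    | succ M ih =>
      rw [Finset.sum_range_succ, hn]
      have h1 : (1 : ℝ) / (((M + N : ℕ) : ℝ) + 1) ^ (2 : ℝ) ≤ 1 / (N + M) - 1 / (N + (M + 1 : ℕ)) := by
        have h2 : (((M + N : ℕ) : ℝ) + 1) ^ (2 : ℝ) = ((N : ℝ) + M + 1) ^ 2 := by
          rw [← Real.rpow_natCast]
          push_cast
          congr 1
          ring
        rw [h2]
        push_cast
        have h3 : (0 : ℝ) < N + M := by positivity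
        have h4 : (1 : ℝ) / (N + M) - 1 / (N + (M + 1)) = 1 / ((N + M) * (N + M + 1)) := by
          field_simp
          ring
        rw [h4]
        apply one_div_le_one_div_of_le (by positivity)
        nlinarith
      linarith
  refine (key M).trans ?_
  have : (0 : ℝ) ≤ 1 / (N + M) := by positivity
  linarith

end Pool.Agent.J4H94.GS6
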