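import Pool.Agent.J4H94.GS6.Z8a

/-!
# Project GS6 (helper38), (Z8), second part: Cauchy's formula and Tonelli
-/

set_option autoImplicit false

open MeasureTheory Set Filter

namespace Pool.Agent.J4H94.GS6

open Pool.Agent.J4H38.GS Pool.Agent.J4H38.GSX Pool.Agent.J4H94.GS
open Pool.Agent.J4H77.PE (Zf Zf_diff Zf_cont Zf_le le_Zf Zf_growth cauchy_gauss norm_quad Growth)

/-- smoothing -/
noncomputable def SS (h : ℝ → ENNReal) (t : ℝ) : ENNReal := ∫⁻ y : ℝ, h (t + y) * ENNReal.ofReal (Real.exp (-y ^ 2))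

noncomputable def EG : ENNReal := ∫⁻ y : ℝ, ENNReal.ofReal (Real.exp (-y ^ 2))

lemma EG_fin : EG < ⊤ := by
  have hi : Integrable (fun y : ℝ => Real.exp (-(1 : ℝ) * y ^ 2)) := integrable_exp_neg_mul_sq (by norm_num)
  have h2 := hi.2
  rw [HasFiniteIntegral] at h2
  refine lt_of_le_of_lt (le_of_eq ?_) h2
  unfold EG
  apply lintegral_congr
  intro y
  rw [Real.enorm_eq_ofReal (by positivity)]
  congr 2
  ring

lemma SS_meas {h : ℝ → ENNReal} (hm : Measurable h) : Measurable (SS h) := by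
  unfold SS
  apply Measurable.lintegral_prod_right'
    (f := fun p : ℝ × ℝ => h (p.1 + p.2) * ENNReal.ofReal (Real.exp (-p.2 ^ 2)))
  have h1 : Measurable (fun p : ℝ × ℝ => h (p.1 + p.2)) := hm.comp (measurable_fst.add measurable_snd)
  exact h1.mul (by fun_prop)

lemma SS_mono {h h' : ℝ → ENNReal} (hh : ∀ u, h u ≤ h' u) (t : ℝ) : SS h t ≤ SS h' t := by
  unfold SS
  apply lintegral_mono
  intro y
  simp only
  gcongr
  exact hh _

lemma SS_const {h : ℝ → ENNReal} {M : ENNReal} (hM : ∀ u, h u ≤ M) (hM' : M ≠ ⊤) (t : ℝ) : SS h t ≤ M * EG := by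
  unfold SS EG
  rw [← lintegral_const_mul' _ _ hM']
  apply lintegral_mono
  intro y
  simp only
  gcongr
  exact hM _

/-- Tonelli and translation -/
lemma SS_window {h : ℝ → ENNReal} (hm : Measurable h) {a b : ℝ} {M : ENNReal} (hM' : M ≠ ⊤)
    (hM : ∀ T : ℝ, ∫⁻ u in Icc T (T + (b - a)), h u ≤ M) : ∫⁻ t in Icc a b, SS h t ≤ M * EG := by
  unfold SS
  rw [lintegral_lintegral_swap]
  · unfold EG
    rw [← lintegral_const_mul' _ _ hM']
    apply lintegral_mono
    intro y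
    simp only
    rw [lintegral_mul_const' _ _ ENNReal.ofReal_ne_top]
    gcongr
    refine le_trans (le_of_eq ?_) (hM (a + y))
    have h1 : ∫⁻ t in Icc a b, h (t + y) = ∫⁻ t, (Icc a b).indicator (fun t => h (t + y)) t :=
      (lintegral_indicator measurableSet_Icc _).symm
    have h2 : ∫⁻ u in Icc (a + y) (a + y + (b - a)), h u =
        ∫⁻ u, (Icc (a + y) (a + y + (b - a))).indicator h u := (lintegral_indicator measurableSet_Icc _).symm
    rw [h1, h2, ← lintegral_add_right_eq_self ((Icc (a + y) (a + y + (b - a))).indicator h) y]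
    apply lintegral_congr
    intro t
    by_cases ht : t ∈ Icc a b
    · rw [indicator_of_mem ht, indicator_of_mem]
      exact ⟨by linarith [ht.1], by linarith [ht.2]⟩
    · rw [indicator_of_notMem ht, indicator_of_notMem]
      intro h3
      exact ht ⟨by linarith [h3.1], by linarith [h3.2]⟩
  · apply Measurable.aemeasurable
    have h1 : Measurable (fun p : ℝ × ℝ => h (p.1 + p.2)) := hm.comp (measurable_fst.add measurable_snd)
    exact h1.mul (by fun_prop)

/-- the fourth power on a line -/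
noncomputable def gl (N : ℕ) (σ u : ℝ) : ENNReal := ‖Gf N (σ + u * Complex.I)‖ₑ ^ 4

lemma gl_meas (N : ℕ) {σ : ℝ} (hσ : -1 < σ) : Measurable (gl N σ) := by
  have hc : Continuous (fun t : ℝ => Gf N (σ + t * Complex.I)) :=
    Pool.Agent.E8helper52.OR.cont_line (fun z hz => Gf_diff N (by rw [hz]; exact hσ))
  have := hc.measurable
  unfold gl
  fun_prop

/-- one of the two lines -/
lemma line_bound {N : ℕ} (hN : 1 ≤ N) {x δ σ K : ℝ} (hδ : δ ≠ 0) (hσ : x + δ = σ)
    (hK : Real.exp (δ ^ 2) * |δ|⁻¹ ≤ K) (t : ℝ) :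
    ‖∫ y : ℝ, Ff N ((x + t * Complex.I) + (δ + y * Complex.I)) *
      (Complex.exp ((δ + y * Complex.I) ^ 2) / (δ + y * Complex.I))‖ₑ ≤
      ENNReal.ofReal ((N : ℝ) ^ σ * K) * SS (gl N σ) t := by
  refine (enorm_integral_le_lintegral_enorm _).trans ?_
  unfold SS
  rw [← lintegral_const_mul' _ _ ENNReal.ofReal_ne_top]
  apply lintegral_mono
  intro y
  simp only
  have e2 : (x + t * Complex.I : ℂ) + (δ + y * Complex.I) = (σ : ℂ) + ((t + y : ℝ) : ℂ) * Complex.I := by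
    rw [← hσ]
    push_cast
    ring
  have hre : ((σ : ℂ) + ((t + y : ℝ) : ℂ) * Complex.I).re = σ := by simp
  unfold gl
  rw [e2, enorm_mul, ← ofReal_norm (Ff N _), Ff_norm hN, hre, ENNReal.ofReal_mul (by positivity),
    ENNReal.ofReal_pow (norm_nonneg _), ofReal_norm]
  have h1 : ‖Complex.exp ((δ + y * Complex.I) ^ 2) / (δ + y * Complex.I)‖ₑ ≤
      ENNReal.ofReal (K * Real.exp (-y ^ 2)) := by
    rw [← ofReal_norm]
    apply ENNReal.ofReal_le_ofReal
    rw [norm_div, norm_quad, div_eq_mul_inv]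
    have h2 : ‖(δ + y * Complex.I : ℂ)‖⁻¹ ≤ |δ|⁻¹ := by
      apply inv_anti₀ (abs_pos.2 hδ)
      have := Complex.abs_re_le_norm (δ + y * Complex.I : ℂ)
      simpa using this
    calc Real.exp (δ ^ 2 - y ^ 2) * ‖(δ + y * Complex.I : ℂ)‖⁻¹
        ≤ Real.exp (δ ^ 2 - y ^ 2) * |δ|⁻¹ := by gcongr
      _ = Real.exp (δ ^ 2) * |δ|⁻¹ * Real.exp (-y ^ 2) := by
          rw [sub_eq_add_neg, Real.exp_add]
          ring
      _ ≤ _ := by gcongr
  calc _ ≤ ‖Gf N (σ + ((t + y : ℝ) : ℂ) * Complex.I)‖ₑ ^ 4 * ENNReal.ofReal ((N : ℝ) ^ σ) *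
        ENNReal.ofReal (K * Real.exp (-y ^ 2)) := by gcongr
    _ = _ := by
        rw [ENNReal.ofReal_mul (le_trans (by positivity) hK), ENNReal.ofReal_mul (by positivity)]
        ring

/-- the inequality of convexity -/
lemma point {N : ℕ} (hN : 1 ≤ N) {x x' K : ℝ} (hx' : 0 ≤ x') (hx : x' < x) (hx2 : x < 2)
    (hK1 : Real.exp ((2 - x) ^ 2) * |2 - x|⁻¹ ≤ K) (hK2 : Real.exp ((-(x - x')) ^ 2) * |-(x - x')|⁻¹ ≤ K) (t : ℝ) :
    gl N x t ≤ ENNReal.ofReal ((N : ℝ) ^ (2 - x) * K) * SS (gl N 2) t +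
      ENNReal.ofReal ((N : ℝ) ^ (x' - x) * K) * SS (gl N x') t := by
  have hN0 : (0 : ℝ) < N := by exact_mod_cast hN
  obtain ⟨C, hg⟩ := Ff_growth hN
  have hF : ∀ z : ℂ, -1 < z.re → DifferentiableAt ℂ (Ff N) z := fun z hz => Ff_diff hN hz
  have hA : 0 < x - x' := by linarith
  have hB : 0 < 2 - x := by linarith
  have hK0 : 0 ≤ K := le_trans (by positivity) hK1
  have h := cauchy_gauss hF hg (s₀ := x + t * Complex.I) hA hB (by simp; exact hx') (by simp)
  have h3 : ‖(2 * Real.pi * Ff N (x + t * Complex.I) : ℂ)‖ₑ ≤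
      ENNReal.ofReal ((N : ℝ) ^ (2 : ℝ) * K) * SS (gl N 2) t +
      ENNReal.ofReal ((N : ℝ) ^ x' * K) * SS (gl N x') t := by
    rw [h]
    refine enorm_sub_le.trans ?_
    exact add_le_add (line_bound hN hB.ne' (by ring) hK1 t) (line_bound hN (neg_ne_zero.2 hA.ne') (by ring) hK2 t)
  have h4 : gl N x t * ENNReal.ofReal ((N : ℝ) ^ x) ≤ ‖(2 * Real.pi * Ff N (x + t * Complex.I) : ℂ)‖ₑ := by
    have h5 : gl N x t * ENNReal.ofReal ((N : ℝ) ^ x) = ‖Ff N (x + t * Complex.I)‖ₑ := by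
      have hre : ((x : ℂ) + t * Complex.I).re = x := by simp
      unfold gl
      rw [← ofReal_norm (Ff N _), Ff_norm hN, hre, ENNReal.ofReal_mul (by positivity),
        ENNReal.ofReal_pow (norm_nonneg _), ofReal_norm]
    rw [h5, enorm_mul]
    refine le_mul_of_one_le_left (by positivity) ?_
    rw [← ofReal_norm, norm_mul, Complex.norm_ofNat, Complex.norm_real, Real.norm_of_nonneg Real.pi_pos.le,
      ← ENNReal.ofReal_one]
    apply ENNReal.ofReal_le_ofReal
    linarith [Real.pi_gt_three]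
  have h6 := h4.trans h3
  have h7 : ENNReal.ofReal ((N : ℝ) ^ x) * ENNReal.ofReal ((N : ℝ) ^ (-x)) = 1 := by
    rw [← ENNReal.ofReal_mul (by positivity), ← Real.rpow_add hN0, add_neg_cancel, Real.rpow_zero, ENNReal.ofReal_one]
  calc gl N x t = gl N x t * ENNReal.ofReal ((N : ℝ) ^ x) * ENNReal.ofReal ((N : ℝ) ^ (-x)) := by
        rw [mul_assoc, h7, mul_one]
    _ ≤ (ENNReal.ofReal ((N : ℝ) ^ (2 : ℝ) * K) * SS (gl N 2) t +
        ENNReal.ofReal ((N : ℝ) ^ x' * K) * SS (gl N x') t) * ENNReal.ofReal ((N : ℝ) ^ (-x)) := by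
        gcongr
    _ = (ENNReal.ofReal ((N : ℝ) ^ (2 : ℝ) * K) * ENNReal.ofReal ((N : ℝ) ^ (-x))) * SS (gl N 2) t +
        (ENNReal.ofReal ((N : ℝ) ^ x' * K) * ENNReal.ofReal ((N : ℝ) ^ (-x))) * SS (gl N x') t := by ring
    _ = _ := by
        rw [← ENNReal.ofReal_mul (by positivity), ← ENNReal.ofReal_mul (by positivity)]
        congr 3
        · rw [sub_eq_add_neg, Real.rpow_add hN0]
          ring
        · rw [sub_eq_add_neg, Real.rpow_add hN0]
          ring

/-- the line `2` -/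
lemma gl_two {N : ℕ} (hN : 1 ≤ N) (u : ℝ) : gl N 2 u ≤ ENNReal.ofReal ((1 / N) ^ 4) := by
  unfold gl
  rw [← ofReal_norm, ← ENNReal.ofReal_pow (norm_nonneg _)]
  apply ENNReal.ofReal_le_ofReal
  refine pow_le_pow_left₀ (norm_nonneg _) ?_ 4
  have hs1 : (((2 : ℝ) : ℂ) + u * Complex.I) ≠ 1 := by
    intro h
    have := congrArg Complex.re h
    simp at this
  rw [Gf_eq hs1, norm_mul]
  refine (mul_le_of_le_one_left (norm_nonneg _) (quot_le (by simp))).trans ?_
  exact tail_two hN u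

end Pool.Agent.J4H94.GS6
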