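import Pool.Agent.J4H94.GS6.Z8b

/-!
# Project GS6 (helper38), (Z8), third part: assembly
-/

set_option autoImplicit false

open MeasureTheory Set Filter

namespace Pool.Agent.J4H94.GS6

open Pool.Agent.J4H38.GS Pool.Agent.J4H38.GSX Pool.Agent.J4H94.GS
open Pool.Agent.J4H77.PE (Zf Zf_diff Zf_cont Zf_le le_Zf Zf_growth cauchy_gauss norm_quad Growth)

/-- the fourth moment of the partial sums -/
def MV4 : Prop := ∀ σ : ℝ, 1 / 2 < σ → ∃ C : ℝ, 0 ≤ C ∧ ∀ (N : ℕ) (T H : ℝ), 1 ≤ N → 0 ≤ H →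
  ∫⁻ t in Icc T (T + H), ‖SN N 0 (σ + t * Complex.I)‖ₑ ^ 4 ≤ ENNReal.ofReal (C * (H + (N : ℝ) ^ 6))

lemma NJ_bounds {η : ℝ} (hη : 0 ≤ η) (j : ℕ) :
    1 ≤ NJ η j ∧ (2 : ℝ) ^ (η * j) ≤ NJ η j ∧ (NJ η j : ℝ) ≤ 2 * (2 : ℝ) ^ (η * j) := by
  have h1 : (1 : ℝ) ≤ (2 : ℝ) ^ (η * j) := Real.one_le_rpow (by norm_num) (by positivity)
  refine ⟨?_, Nat.le_ceil _, ?_⟩
  · unfold NJ
    exact Nat.one_le_ceil_iff.mpr (by linarith)
  · have : (NJ η j : ℝ) < (2 : ℝ) ^ (η * j) + 1 := Nat.ceil_lt_add_one (by positivity)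
    linarith

/-- the fourth moment of `Zf`, smoothed -/
lemma Zf_part {w x' : ℝ} (hw : 0 ≤ w) (hx' : -1 < x') (hNN : NN w x' < ⊤) : ∃ B : ENNReal, B < ⊤ ∧ ∀ j : ℕ,
    ∫⁻ t in Icc ((2 : ℝ) ^ j / 2) (4 * 2 ^ j), SS (fun u => ‖Zf (x' + u * Complex.I)‖ₑ ^ 4) t ≤
      ENNReal.ofReal ((5 * 2 ^ j) ^ w) * B := by
  have i1 := JJ_int hw (σ := x' - 1) (δ := 1) (by linarith) (by rw [sub_add_cancel]; exact hNN)
  refine ⟨_, i1, fun j => ?_⟩
  have h2j : (1 : ℝ) ≤ 2 ^ j := one_le_pow₀ (by norm_num)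
  rw [← lintegral_const_mul' _ _ ENNReal.ofReal_ne_top]
  refine le_trans (setLIntegral_mono' measurableSet_Icc ?_) (setLIntegral_le_lintegral _ _)
  intro t ht
  have ht0 : 0 ≤ t := by linarith [ht.1]
  have h1 : SS (fun u => ‖Zf (x' + u * Complex.I)‖ₑ ^ 4) t ≤ JJ (x' - 1) 1 t := by
    unfold SS JJ
    apply lintegral_mono
    intro y
    simp only
    rw [sub_add_cancel]
    gcongr
    rw [abs_one, inv_one, mul_one]
    apply Real.exp_le_exp.2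
    linarith
  have h2 : 1 ≤ (5 * 2 ^ j) ^ w * (1 + |t|) ^ (-w) := by
    rw [abs_of_nonneg ht0, Real.rpow_neg (by linarith), ← div_eq_mul_inv, le_div_iff₀ (Real.rpow_pos_of_pos (by linarith) _), one_mul]
    apply Real.rpow_le_rpow (by linarith) _ hw
    linarith [ht.2]
  calc SS (fun u => ‖Zf (x' + u * Complex.I)‖ₑ ^ 4) t ≤ JJ (x' - 1) 1 t * 1 := by rw [mul_one]; exact h1
    _ ≤ JJ (x' - 1) 1 t * ENNReal.ofReal ((5 * 2 ^ j) ^ w * (1 + |t|) ^ (-w)) := by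
        gcongr
        rw [← ENNReal.ofReal_one]
        exact ENNReal.ofReal_le_ofReal h2
    _ = _ := by
        rw [ENNReal.ofReal_mul (by positivity)]
        ring

lemma gl_le (N : ℕ) {σ : ℝ} (hσ : 0 ≤ σ) (u : ℝ) :
    gl N σ u ≤ 8 * ‖Zf (σ + u * Complex.I)‖ₑ ^ 4 + 8 * ‖SN N 0 (σ + u * Complex.I)‖ₑ ^ 4 := by
  unfold gl
  rw [← ofReal_norm, ← ofReal_norm, ← ofReal_norm, ← ENNReal.ofReal_pow (norm_nonneg _),
    ← ENNReal.ofReal_pow (norm_nonneg _), ← ENNReal.ofReal_pow (norm_nonneg _)]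
  have e8 : (8 : ENNReal) = ENNReal.ofReal 8 := by simp
  rw [e8, ← ENNReal.ofReal_mul (by norm_num), ← ENNReal.ofReal_mul (by norm_num),
    ← ENNReal.ofReal_add (by positivity) (by positivity)]
  apply ENNReal.ofReal_le_ofReal
  have := Gf_le4 (N := N) (s := σ + u * Complex.I) (by simpa using hσ)
  linarith

/-- the line `x'` -/
lemma line_x' {w x' C : ℝ} (hw : 0 ≤ w) (hx' : 0 ≤ x') (hNN : NN w x' < ⊤) (hC : 0 ≤ C)
    (hMV : ∀ (N : ℕ) (T H : ℝ), 1 ≤ N → 0 ≤ H →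
      ∫⁻ t in Icc T (T + H), ‖SN N 0 (x' + t * Complex.I)‖ₑ ^ 4 ≤ ENNReal.ofReal (C * (H + (N : ℝ) ^ 6))) :
    ∃ B : ENNReal, B < ⊤ ∧ ∀ (j N : ℕ), 1 ≤ N →
      ∫⁻ t in Icc ((2 : ℝ) ^ j / 2) (4 * 2 ^ j), SS (gl N x') t ≤
        ENNReal.ofReal ((5 * 2 ^ j) ^ w) * B + ENNReal.ofReal (8 * (C * (4 * 2 ^ j + (N : ℝ) ^ 6))) * EG := by
  obtain ⟨B, hB, hZ⟩ := Zf_part hw (by linarith) hNN
  refine ⟨8 * B, ENNReal.mul_lt_top (by finiteness) hB, fun j N hN => ?_⟩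
  have h2j : (1 : ℝ) ≤ 2 ^ j := one_le_pow₀ (by norm_num)
  have hcZ : Measurable (fun t : ℝ => ‖Zf (x' + t * Complex.I)‖ₑ ^ 4) := by
    have := (Zf_cont (σ := x') (by linarith)).measurable
    fun_prop
  have hcS : Measurable (fun t : ℝ => ‖SN N 0 (x' + t * Complex.I)‖ₑ ^ 4) := by
    have hc : Continuous (fun t : ℝ => SN N 0 (x' + t * Complex.I)) :=
      Pool.Agent.E8helper52.OR.cont_line (f := fun s => SN N 0 s) (fun z _ => SN_diff N z)
    have := hc.measurable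
    fun_prop
  have h1 : ∀ t, SS (gl N x') t ≤ 8 * SS (fun u => ‖Zf (x' + u * Complex.I)‖ₑ ^ 4) t +
      8 * SS (fun u => ‖SN N 0 (x' + u * Complex.I)‖ₑ ^ 4) t := by
    intro t
    refine (SS_mono (gl_le N hx') t).trans ?_
    unfold SS
    rw [← lintegral_const_mul' _ _ (by finiteness), ← lintegral_const_mul' _ _ (by finiteness), ← lintegral_add_left]
    · apply lintegral_mono
      intro y
      simp only
      rw [add_mul, mul_assoc, mul_assoc]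
    · have h2 : Measurable (fun y : ℝ => ‖Zf (x' + ((t + y : ℝ) : ℂ) * Complex.I)‖ₑ ^ 4) :=
        hcZ.comp (measurable_const.add measurable_id)
      exact (h2.mul (by fun_prop)).const_mul _
  calc ∫⁻ t in Icc ((2 : ℝ) ^ j / 2) (4 * 2 ^ j), SS (gl N x') t
      ≤ ∫⁻ t in Icc ((2 : ℝ) ^ j / 2) (4 * 2 ^ j), (8 * SS (fun u => ‖Zf (x' + u * Complex.I)‖ₑ ^ 4) t +
      8 * SS (fun u => ‖SN N 0 (x' + u * Complex.I)‖ₑ ^ 4) t) := lintegral_mono h1
    _ = 8 * (∫⁻ t in Icc ((2 : ℝ) ^ j / 2) (4 * 2 ^ j), SS (fun u => ‖Zf (x' + u * Complex.I)‖ₑ ^ 4) t) +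
      8 * (∫⁻ t in Icc ((2 : ℝ) ^ j / 2) (4 * 2 ^ j), SS (fun u => ‖SN N 0 (x' + u * Complex.I)‖ₑ ^ 4) t) := by
        rw [lintegral_add_left ((SS_meas hcZ).const_mul _), lintegral_const_mul' _ _ (by finiteness),
          lintegral_const_mul' _ _ (by finiteness)]
    _ ≤ 8 * (ENNReal.ofReal ((5 * 2 ^ j) ^ w) * B) +
      8 * (ENNReal.ofReal (C * (4 * 2 ^ j + (N : ℝ) ^ 6)) * EG) := by
        gcongr
        · exact hZ j
        · apply SS_window hcS ENNReal.ofReal_ne_top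
          intro T
          refine (hMV N T _ hN (by linarith)).trans ?_
          apply ENNReal.ofReal_le_ofReal
          apply mul_le_mul_of_nonneg_left _ hC
          linarith
    _ = _ := by
        rw [ENNReal.ofReal_mul (by norm_num : (0 : ℝ) ≤ 8)]
        have e8 : (8 : ENNReal) = ENNReal.ofReal 8 := by simp
        rw [← e8]
        ring

theorem z8 : MV4 → S_Z3A → S_Z8 := by
  intro hMV hA x₀ x₁ η h0 h01 h1 hη hη8
  -- the constants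
  set x' : ℝ := (1 / 2 + x₀) / 2 with hx'
  have hx1' : 1 / 2 < x' := by rw [hx']; linarith
  have hx2' : x' < x₀ := by rw [hx']; linarith
  set c : ℝ := x₀ - x' with hc
  have hc0 : 0 < c := by rw [hc]; linarith
  have hc1 : c < 1 := by rw [hc]; linarith
  set ε : ℝ := c * η / 2 with hε
  have hε0 : 0 < ε := by positivity
  set w : ℝ := 1 + ε with hw
  have hw1 : 1 < w := by linarith
  have hw0 : 0 ≤ w := by linarith
  have ha : NN w (1 / 2) < ⊤ := full hw0 (by norm_num) (hA w hw1)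
  have hb : NN w 2 < ⊤ := by
    apply full hw0 (by norm_num)
    obtain ⟨C, hC, hz⟩ := zeta_two_le
    have : ∫⁻ t in {t : ℝ | 1 ≤ |t|}, ‖riemannZeta ((2 : ℝ) + t * Complex.I)‖ₑ ^ 4 * ENNReal.ofReal (|t| ^ (-w)) ≤
        ∫⁻ t in {t : ℝ | 1 ≤ |t|}, ENNReal.ofReal C ^ 4 * ENNReal.ofReal (|t| ^ (-w)) := by
      apply lintegral_mono
      intro t
      simp only
      gcongr
      rw [← ofReal_norm]
      exact ENNReal.ofReal_le_ofReal (hz t)
    refine lt_of_le_of_lt this ?_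
    rw [lintegral_const_mul' _ _ (ENNReal.pow_ne_top ENNReal.ofReal_ne_top)]
    exact ENNReal.mul_lt_top (ENNReal.pow_lt_top ENNReal.ofReal_lt_top) (tail_fin hw1)
  have hNN : NN w x' < ⊤ := NN_conv hw0 hx1' (by linarith) ha hb
  obtain ⟨C₄, hC₄, hMV4⟩ := hMV x' hx1'
  obtain ⟨B, hB, hline⟩ := line_x' hw0 (by linarith) hNN hC₄ hMV4
  set K : ℝ := Real.exp (9 / 4) * max 1 c⁻¹ with hK
  have hK0 : 0 ≤ K := by positivity
  obtain ⟨e, he⟩ : ∃ e, e = EG.toReal := ⟨_, rfl⟩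
  have heG : EG = ENNReal.ofReal e := by rw [he, ENNReal.ofReal_toReal EG_fin.ne]
  obtain ⟨b, hbb⟩ : ∃ b, b = B.toReal := ⟨_, rfl⟩
  have hBb : B = ENNReal.ofReal b := by rw [hbb, ENNReal.ofReal_toReal hB.ne]
  have he0 : 0 ≤ e := by rw [he]; positivity
  have hb0 : 0 ≤ b := by rw [hbb]; positivity
  refine ⟨ε, 625 * (K * (4 * e + 5 ^ w * b + 544 * C₄ * e)), hε0, by positivity, fun j x hx0 hx1 => ?_⟩
  obtain ⟨hN1, hN2, hN3⟩ := NJ_bounds hη.le j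
  set N : ℕ := NJ η j with hN
  have hNpos : (0 : ℝ) < N := by exact_mod_cast hN1
  have h2j : (1 : ℝ) ≤ 2 ^ j := one_le_pow₀ (by norm_num)
  have hj0 : (0 : ℝ) ≤ j := Nat.cast_nonneg _
  -- the kernel bounds
  have hK1 : Real.exp ((2 - x) ^ 2) * |2 - x|⁻¹ ≤ K := by
    rw [hK, abs_of_pos (by linarith : 0 < 2 - x)]
    have e1 : Real.exp ((2 - x) ^ 2) ≤ Real.exp (9 / 4) := by
      apply Real.exp_le_exp.2
      nlinarith
    have e2 : (2 - x)⁻¹ ≤ max 1 c⁻¹ := (inv_le_one_of_one_le₀ (by linarith)).trans (le_max_left _ _)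
    exact mul_le_mul e1 e2 (inv_nonneg.2 (by linarith)) (Real.exp_pos _).le
  have hK2 : Real.exp ((-(x - x')) ^ 2) * |-(x - x')|⁻¹ ≤ K := by
    rw [hK, abs_neg, abs_of_pos (by linarith : 0 < x - x')]
    have e1 : Real.exp ((-(x - x')) ^ 2) ≤ Real.exp (9 / 4) := by
      apply Real.exp_le_exp.2
      nlinarith
    have e2 : (x - x')⁻¹ ≤ max 1 c⁻¹ := (inv_anti₀ hc0 (by rw [hc]; linarith)).trans (le_max_right _ _)
    exact mul_le_mul e1 e2 (inv_nonneg.2 (by linarith)) (Real.exp_pos _).le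
  have hpt := point hN1 (x := x) (x' := x') (K := K) (by linarith) (by linarith) (by linarith) hK1 hK2
  have hpt2 : ∀ t ∈ Icc ((2 : ℝ) ^ j / 2) (4 * 2 ^ j),
      ‖riemannZeta (x + t * Complex.I) - SN N 0 (x + t * Complex.I)‖ₑ ^ 4 ≤
        625 * (ENNReal.ofReal ((N : ℝ) ^ (2 - x) * K) * SS (gl N 2) t +
          ENNReal.ofReal ((N : ℝ) ^ (x' - x) * K) * SS (gl N x') t) := by
    intro t ht
    have ht0 : 1 / 2 ≤ t := by linarith [ht.1]
    have h2 : ‖riemannZeta (x + t * Complex.I) - SN N 0 (x + t * Complex.I)‖ₑ ≤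
        ENNReal.ofReal 5 * ‖Gf N (x + t * Complex.I)‖ₑ := by
      rw [← ofReal_norm, ← ofReal_norm, ← ENNReal.ofReal_mul (by norm_num)]
      apply ENNReal.ofReal_le_ofReal
      apply le_Gf
      have : (x + t * Complex.I : ℂ).im = t := by simp
      rw [this, abs_of_nonneg (by linarith)]
      exact ht0
    calc _ ≤ (ENNReal.ofReal 5 * ‖Gf N (x + t * Complex.I)‖ₑ) ^ 4 := by gcongr
      _ = 625 * gl N x t := by
          unfold gl
          rw [mul_pow, ← ENNReal.ofReal_pow (by norm_num)]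
          congr 1
          norm_num
      _ ≤ _ := by
          gcongr
          exact hpt t
  have I2 : ∫⁻ t in Icc ((2 : ℝ) ^ j / 2) (4 * 2 ^ j), SS (gl N 2) t ≤
      ENNReal.ofReal ((1 / N) ^ 4 * e * (4 * 2 ^ j)) := by
    calc _ ≤ ∫⁻ t in Icc ((2 : ℝ) ^ j / 2) (4 * 2 ^ j), ENNReal.ofReal ((1 / N) ^ 4) * EG :=
          lintegral_mono fun t => SS_const (gl_two hN1) ENNReal.ofReal_ne_top t
      _ = ENNReal.ofReal ((1 / N) ^ 4) * EG * ENNReal.ofReal (4 * 2 ^ j - 2 ^ j / 2) := by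
          rw [setLIntegral_const, Real.volume_Icc]
      _ ≤ ENNReal.ofReal ((1 / N) ^ 4) * EG * ENNReal.ofReal (4 * 2 ^ j) := by
          gcongr
          linarith
      _ = _ := by
          rw [heG, ← ENNReal.ofReal_mul (by positivity), ← ENNReal.ofReal_mul (by positivity)]
  have I1 : ∫⁻ t in Icc ((2 : ℝ) ^ j / 2) (4 * 2 ^ j), SS (gl N x') t ≤
      ENNReal.ofReal ((5 * 2 ^ j) ^ w * b + 8 * (C₄ * (4 * 2 ^ j + (N : ℝ) ^ 6)) * e) := by
    refine (hline j N hN1).trans (le_of_eq ?_)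
    rw [heG, hBb, ← ENNReal.ofReal_mul (by positivity), ← ENNReal.ofReal_mul (by positivity),
      ← ENNReal.ofReal_add (by positivity) (by positivity)]
  -- the final inequality
  have hfin : 625 * ((N : ℝ) ^ (2 - x) * K * ((1 / N) ^ 4 * e * (4 * 2 ^ j)) +
      (N : ℝ) ^ (x' - x) * K * ((5 * 2 ^ j) ^ w * b + 8 * (C₄ * (4 * 2 ^ j + (N : ℝ) ^ 6)) * e)) ≤
      625 * (K * (4 * e + 5 ^ w * b + 544 * C₄ * e)) * (2 : ℝ) ^ (j * (1 - ε)) := by
    have P : (2 : ℝ) ^ ((j : ℝ) * (1 - ε)) = 2 ^ j * (2 : ℝ) ^ (-(ε * j)) := by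
      rw [← Real.rpow_natCast, ← Real.rpow_add (by norm_num)]
      congr 1
      ring
    have Q1 : (N : ℝ) ^ (2 - x) * (1 / N) ^ 4 ≤ (2 : ℝ) ^ (-(ε * j)) := by
      have h2 : ((1 : ℝ) / N) ^ 4 = (N : ℝ) ^ (-(4 : ℝ)) := by
        rw [Real.rpow_neg hNpos.le, one_div, inv_pow]
        norm_num
      rw [h2, ← Real.rpow_add hNpos]
      have h3 : (N : ℝ) ^ (2 - x + -4) ≤ (N : ℝ) ^ (-(1 : ℝ)) :=
        Real.rpow_le_rpow_of_exponent_le (by exact_mod_cast hN1) (by linarith)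
      refine h3.trans ?_
      rw [Real.rpow_neg hNpos.le, Real.rpow_neg (by norm_num), Real.rpow_one]
      apply inv_anti₀ (Real.rpow_pos_of_pos (by norm_num) _)
      refine le_trans ?_ hN2
      apply Real.rpow_le_rpow_of_exponent_le (by norm_num)
      apply mul_le_mul_of_nonneg_right _ hj0
      rw [hε]
      nlinarith
    have Q2 : (N : ℝ) ^ (x' - x) ≤ (2 : ℝ) ^ (-(2 * ε * j)) := by
      have h3 : (N : ℝ) ^ (x' - x) ≤ (N : ℝ) ^ (-c) :=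
        Real.rpow_le_rpow_of_exponent_le (by exact_mod_cast hN1) (by rw [hc]; linarith)
      refine h3.trans ?_
      rw [Real.rpow_neg hNpos.le, Real.rpow_neg (by norm_num)]
      apply inv_anti₀ (Real.rpow_pos_of_pos (by norm_num) _)
      calc (2 : ℝ) ^ (2 * ε * j) = ((2 : ℝ) ^ (η * j)) ^ c := by
            rw [← Real.rpow_mul (by norm_num)]
            congr 1
            rw [hε]
            ring
        _ ≤ (N : ℝ) ^ c := Real.rpow_le_rpow (by positivity) hN2 hc0.le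
    have Q3 : ((5 : ℝ) * 2 ^ j) ^ w = 5 ^ w * (2 ^ j * (2 : ℝ) ^ (ε * j)) := by
      rw [Real.mul_rpow (by norm_num) (by positivity)]
      congr 1
      rw [← Real.rpow_natCast, ← Real.rpow_mul (by norm_num), ← Real.rpow_add (by norm_num), hw]
      congr 1
      ring
    have Q4 : (N : ℝ) ^ 6 ≤ 64 * 2 ^ j := by
      calc (N : ℝ) ^ 6 ≤ (2 * (2 : ℝ) ^ (η * j)) ^ 6 := pow_le_pow_left₀ hNpos.le hN3 6
        _ = 64 * ((2 : ℝ) ^ (η * j)) ^ 6 := by rw [mul_pow]; norm_num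
        _ ≤ 64 * 2 ^ j := by
            apply mul_le_mul_of_nonneg_left _ (by norm_num)
            rw [← Real.rpow_natCast, ← Real.rpow_natCast, ← Real.rpow_mul (by norm_num)]
            apply Real.rpow_le_rpow_of_exponent_le (by norm_num)
            push_cast
            nlinarith
    have Q5 : (1 : ℝ) ≤ (2 : ℝ) ^ (ε * j) := Real.one_le_rpow (by norm_num) (by positivity)
    have Q6 : (2 : ℝ) ^ (-(2 * ε * j)) * (2 : ℝ) ^ (ε * j) = (2 : ℝ) ^ (-(ε * j)) := by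
      rw [← Real.rpow_add (by norm_num)]
      congr 1
      ring
    have R1 : (N : ℝ) ^ (2 - x) * K * ((1 / N) ^ 4 * e * (4 * 2 ^ j)) ≤
        K * (4 * e) * (2 ^ j * (2 : ℝ) ^ (-(ε * j))) := by
      calc _ = K * (4 * e) * 2 ^ j * ((N : ℝ) ^ (2 - x) * (1 / N) ^ 4) := by ring
        _ ≤ K * (4 * e) * 2 ^ j * (2 : ℝ) ^ (-(ε * j)) := by gcongr
        _ = _ := by ring
    have R2 : (5 * (2 : ℝ) ^ j) ^ w * b + 8 * (C₄ * (4 * 2 ^ j + (N : ℝ) ^ 6)) * e ≤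
        (5 ^ w * b + 544 * C₄ * e) * (2 ^ j * (2 : ℝ) ^ (ε * j)) := by
      rw [Q3]
      have h3 : 8 * (C₄ * (4 * 2 ^ j + (N : ℝ) ^ 6)) * e ≤ 544 * C₄ * e * (2 ^ j * (2 : ℝ) ^ (ε * j)) := by
        calc 8 * (C₄ * (4 * 2 ^ j + (N : ℝ) ^ 6)) * e ≤ 8 * (C₄ * (4 * 2 ^ j + 64 * 2 ^ j)) * e := by gcongr
          _ = 544 * C₄ * e * (2 ^ j * 1) := by ring
          _ ≤ _ := by gcongr
      linarith
    have R3 : (N : ℝ) ^ (x' - x) * K * ((5 * 2 ^ j) ^ w * b + 8 * (C₄ * (4 * 2 ^ j + (N : ℝ) ^ 6)) * e) ≤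
        K * (5 ^ w * b + 544 * C₄ * e) * (2 ^ j * (2 : ℝ) ^ (-(ε * j))) := by
      calc _ ≤ (2 : ℝ) ^ (-(2 * ε * j)) * K * ((5 ^ w * b + 544 * C₄ * e) * (2 ^ j * (2 : ℝ) ^ (ε * j))) := by
            gcongr
        _ = K * (5 ^ w * b + 544 * C₄ * e) * (2 ^ j * ((2 : ℝ) ^ (-(2 * ε * j)) * (2 : ℝ) ^ (ε * j))) := by ring
        _ = _ := by rw [Q6]
    rw [P]
    linarith
  calc ∫⁻ t in Icc ((2 : ℝ) ^ j / 2) (4 * 2 ^ j), ‖riemannZeta (x + t * Complex.I) - SN N 0 (x + t * Complex.I)‖ₑ ^ 4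
      ≤ ∫⁻ t in Icc ((2 : ℝ) ^ j / 2) (4 * 2 ^ j), 625 * (ENNReal.ofReal ((N : ℝ) ^ (2 - x) * K) * SS (gl N 2) t +
          ENNReal.ofReal ((N : ℝ) ^ (x' - x) * K) * SS (gl N x') t) := setLIntegral_mono' measurableSet_Icc hpt2
    _ = 625 * (ENNReal.ofReal ((N : ℝ) ^ (2 - x) * K) * (∫⁻ t in Icc ((2 : ℝ) ^ j / 2) (4 * 2 ^ j), SS (gl N 2) t) +
          ENNReal.ofReal ((N : ℝ) ^ (x' - x) * K) * (∫⁻ t in Icc ((2 : ℝ) ^ j / 2) (4 * 2 ^ j), SS (gl N x') t)) := by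
        rw [lintegral_const_mul' _ _ (by finiteness),
          lintegral_add_left ((SS_meas (gl_meas N (by norm_num))).const_mul _),
          lintegral_const_mul' _ _ ENNReal.ofReal_ne_top, lintegral_const_mul' _ _ ENNReal.ofReal_ne_top]
    _ ≤ 625 * (ENNReal.ofReal ((N : ℝ) ^ (2 - x) * K) * ENNReal.ofReal ((1 / N) ^ 4 * e * (4 * 2 ^ j)) +
          ENNReal.ofReal ((N : ℝ) ^ (x' - x) * K) *
            ENNReal.ofReal ((5 * 2 ^ j) ^ w * b + 8 * (C₄ * (4 * 2 ^ j + (N : ℝ) ^ 6)) * e)) := by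
        gcongr
    _ = ENNReal.ofReal (625 * ((N : ℝ) ^ (2 - x) * K * ((1 / N) ^ 4 * e * (4 * 2 ^ j)) +
      (N : ℝ) ^ (x' - x) * K * ((5 * 2 ^ j) ^ w * b + 8 * (C₄ * (4 * 2 ^ j + (N : ℝ) ^ 6)) * e))) := by
        have e625 : (625 : ENNReal) = ENNReal.ofReal 625 := by simp
        rw [e625, ← ENNReal.ofReal_mul (by positivity), ← ENNReal.ofReal_mul (by positivity),
          ← ENNReal.ofReal_add (by positivity) (by positivity), ← ENNReal.ofReal_mul (by norm_num)]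
    _ ≤ _ := ENNReal.ofReal_le_ofReal hfin

end Pool.Agent.J4H94.GS6
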